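import Pool.Agent.AH.Final

set_option autoImplicit false

noncomputable section

namespace Pool.Agent.Results.MP_95030e_al.AmenableEdges

open Pool.Agent.VN

/-- Let `G` be a sofic group which acts by automorphisms and without inversions on a tree such that
the stabilisers of all edges are amenable. If the stabilisers of all vertices satisfy the Atiyah
conjecture over `ℚ` then `G` satisfies the Atiyah conjecture over `ℚ`. -/
theorem result (G V : Type) [Group G] [MulAction G V] (hG : Pool.Agent.AH.IsSofic G)
    (T : SimpleGraph V) (hT : T.IsTree)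
    (hadj : ∀ (g : G) (u v : V), T.Adj u v → T.Adj (g • u) (g • v))
    (hinv : ∀ (g : G) (u v : V), T.Adj u v → ¬ (g • u = v ∧ g • v = u))
    (hA : ∀ v : V, AtiyahOver (algebraMap ℚ ℂ).range (MulAction.stabilizer G v))
    (hE : ∀ u v : V, T.Adj u v →
      Pool.Agent.AH.Amn (MulAction.stabilizer G u ⊓ MulAction.stabilizer G v : Subgroup G)) :
    AtiyahOver (algebraMap ℚ ℂ).range G :=
  Pool.Agent.AH.amenable_edges hG T hT hadj hinv hA hE

end Pool.Agent.Results.MP_95030e_al.AmenableEdges
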