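import Pool.Agent.CBG.Atiyah

set_option autoImplicit false

noncomputable section

namespace Pool.Agent.Results.MP_95030e_al.ArtinGroups

open Pool.Agent.VN Pool.Agent.CBG

/-- Let `A` be a group of braid type (`BraidType`): isomorphic to

* the Artin group of a Coxeter matrix `M` (the set of nodes is arbitrary) such that every finite
  set `T` of nodes without label infinity (in Mathlib: `0`) is a disjoint union of sets for which
  the Coxeter group is finite or the restriction of `M` is of affine type `A~`, `B~` or `C~`, or

* `CB τ m`: the group with the generators `t i` (`i` in a non-empty set `I` with a permutation
  `τ`), `s 0, ..., s (m - 1)` and the relations `t (τ i) t i = t (τ j) t j`,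
  `t i s 0 t i = s 0 t i s 0`, `t i s k = s k t i` (`k > 0`), and the braid relations of the `s k`.

Then `A` satisfies the strong Atiyah conjecture over `ℂ`, and for every subring `k` of `ℂ`, every
group `G` with a homomorphism `f : G →* A` whose kernel satisfies the strong Atiyah conjecture over
`k` satisfies it.

In particular this holds for all Artin groups of FC type (the Coxeter group of every finite set of
nodes without label infinity is finite), hence for all Artin groups of spherical type (finite
Coxeter group) and for all right-angled Artin groups, for those of affine type `A~`, `B~`, `C~`,
and for the braid groups of the complex reflection groups `G(e,e,m+2)` (`CB τ m` for `I = ZMod e`,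
`τ i = i + 1`: the presentation of Corran and Picantin, `Pool.Agent.CBG.braidType_Gee`).

The proof contains the classification of the finite Coxeter groups
(`Pool.Agent.Art.sph_of_finite`). -/
theorem result (A : Type) [Group A] (hA : BraidType A) :
    AtiyahOver ⊤ A ∧ ∀ (k : Subring ℂ) (G : Type) [Group G] (f : G →* A),
      AtiyahOver k f.ker → AtiyahOver k G :=
  hA.atiyah

end Pool.Agent.Results.MP_95030e_al.ArtinGroups
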