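import Pool.Agent.HL.Hier
import Pool.Agent.HX.AtMain

set_option autoImplicit false

noncomputable section

namespace Pool.Agent.Results.MP_95030e_al.Extension

open Pool.Agent.VN Pool.Agent.HL

/-- A group `G` satisfies the strong Atiyah conjecture over `k` if every finitely generated
subgroup `H` of `G` without nontrivial homomorphisms to `ℤ` has a homomorphism `f : H →* Q`, `Q` in
the class `HierL`, whose kernel satisfies it.

The class `HierL` is the smallest class of groups which contains the trivial groups and is closed
under graphs of groups (actions on trees without inversions, arbitrary edge groups), extensions by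
elementary amenable groups, directed unions and the local step: a group belongs to the class if all
its finitely generated subgroups without nontrivial homomorphisms to `ℤ` do. In particular `Q` may
be any graph of groups with locally indicable vertex groups.

Special cases: one homomorphism `G →* Q`, `Q` in `HierL`, whose kernel satisfies the conjecture
(restricted to the subgroups `H`); all subgroups `H` satisfy the conjecture (`Q` trivial). -/
theorem result (k : Subring ℂ) (G : Type) [Group G]
    (h : ∀ H : Subgroup G, H.FG → (∀ f : H →* Multiplicative ℤ, f = 1) →
      ∃ (Q : Type) (_ : Group Q) (f : H →* Q), HierL Q ∧ AtiyahOver k f.ker) : AtiyahOver k G :=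
  Pool.Agent.HX.atiyah_of_fg k G fun H hfg h0 => by
    obtain ⟨Q, _, f, hQ, hf⟩ := h H hfg h0
    exact atiyah_of_hierL k H Q f hQ hf

end Pool.Agent.Results.MP_95030e_al.Extension
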