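import Pool.Agent.MCG.PDenD

set_option autoImplicit false

noncomputable section

namespace Pool.Agent.Results.MP_95030e_al.MappingClassGroups

open Pool.Agent.VN Pool.Agent.MCG

/-- 1. Let `G` be a group and `D` an integer such that for every prime `p` some subgroup `K` of `G`
of finite index is good at `p` (`Good p K`), every power of `p` which divides `[G : K]` dividing
`D`. Then `D * kerDim A` is an integer for every matrix `A` over `ℂG` (for `D = 1` this is the
strong Atiyah conjecture over `ℂ`).

2. Let `F` be the free group on `a_i`, `b_i`, `i < g`, and `x_j`, `j < m`, and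
`w = x_1 ⋯ x_m [a_1, b_1] ⋯ [a_g, b_g]` (`bdW g m`). Every group `G` of automorphisms of `F` which
fix `w` and permute the conjugacy classes of the `x_j` satisfies the strong Atiyah conjecture over
`ℂ`. (The mapping class group of the surface of genus `g` with one boundary component and `m`
permutable punctures; for `g = 0` the braid group.)

3. If `m ≥ 2 g + 1`, the same holds for every group of automorphisms of `F` which preserve the
conjugacy classes of `w` and of all `x_j`. (The pure mapping class group of the closed surface of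
genus `g` with `m + 2 ≥ 2 g + 3` punctures; one of them is the base point.) -/
theorem result :
    (∀ (G : Type) [Group G] (D : ℕ), (∀ p : ℕ, p.Prime → ∃ K : Subgroup G,
      K.index ≠ 0 ∧ (∀ k : ℕ, p ^ k ∣ K.index → p ^ k ∣ D) ∧ Good p K) →
      ∀ (r s : ℕ) (A : Matrix (Fin r) (Fin s) (G →₀ ℂ)), ∃ z : ℤ, (D : ℝ) * kerDim A = z) ∧
    (∀ (g m : ℕ) (G : Type) [Group G] (f : G →* MulAut (FreeGroup ((Fin g × Bool) ⊕ Fin m))),
      Function.Injective f → (∀ x, PermX (f x)) → (∀ x, f x (bdW g m) = bdW g m) →
      AtiyahOver ⊤ G) ∧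
    ∀ (g m : ℕ) (G : Type) [Group G] (f : G →* MulAut (FreeGroup ((Fin g × Bool) ⊕ Fin m))),
      Function.Injective f →
      (∀ x j, IsConj (f x (FreeGroup.of (Sum.inr j))) (FreeGroup.of (Sum.inr j))) →
      (∀ x, IsConj (f x (bdW g m)) (bdW g m)) → 2 * g + 1 ≤ m → AtiyahOver ⊤ G :=
  ⟨fun _ _ _ h _ _ A => den_of_good h A, fun g m _ _ f hf hx hw => atiyah_bdW g m f hf hx hw,
    fun g m _ _ f hf hx hw hm => atiyah_punct g m f hf (fun γ j => ⟨j, hx γ j⟩) hw
      ⟨Finset.univ, by simpa using hm, fun γ j _ => hx γ j⟩⟩

end Pool.Agent.Results.MP_95030e_al.MappingClassGroups
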